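import Pool.Agent.Helper26.LU.Goals

/-!
# Project LU (MP_db6300_gt), packet T2: the Jacobian of the unperturbed chain
-/

set_option autoImplicit false

namespace Pool.Agent.Helper8.LU

open MeasureTheory Matrix Real
open Pool.Agent.Helper26.LU

theorem det3_mulVec' (A : M3) (u v w : V) :
    det3 (A *ᵥ u) (A *ᵥ v) (A *ᵥ w) = A.det * det3 u v w := by
  simp only [det3, Matrix.mulVec, dotProduct, Fin.sum_univ_three, cross_apply,
    Matrix.det_fin_three, Matrix.cons_val_zero, Matrix.cons_val_one, Matrix.cons_val]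
  ring

theorem det3_mulVec {A : M3} (h : A ∈ SO3) (u v w : V) :
    det3 (A *ᵥ u) (A *ᵥ v) (A *ᵥ w) = det3 u v w := by
  rw [det3_mulVec', ((mem_SO3 A).1 h).2, one_mul]

theorem mulVec_transpose {S : M3} (h : S ∈ SO3) (x : V) : S *ᵥ (Sᵀ *ᵥ x) = x := by
  rw [Matrix.mulVec_mulVec, ((mem_SO3 S).1 h).1, Matrix.one_mulVec]

/-- Rotations commute with the cross product. -/
theorem cross_mulVec {S : M3} (h : S ∈ SO3) (u v : V) :
    crossProduct (S *ᵥ u) (S *ᵥ v) = S *ᵥ crossProduct u v := by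
  have key : ∀ x : V, x ⬝ᵥ crossProduct (S *ᵥ u) (S *ᵥ v) = x ⬝ᵥ (S *ᵥ crossProduct u v) := by
    intro x
    rw [← mulVec_transpose h x, dot_mulVec h]
    exact det3_mulVec h _ _ _
  ext i
  have := key (Pi.single i 1)
  simpa using this

theorem hd_mulVec (A : M3) {f : ℝ → V} {f' : V} {x : ℝ} (h : HasDerivAt f f' x) :
    HasDerivAt (fun t => A *ᵥ f t) (A *ᵥ f') x := by
  rw [hasDerivAt_pi] at h ⊢
  intro i
  simp only [Matrix.mulVec, dotProduct, Fin.sum_univ_three]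
  exact (((h 0).const_mul _).add ((h 1).const_mul _)).add ((h 2).const_mul _)

theorem hd_Rot (v : V) (x : ℝ) :
    HasDerivAt (fun t => Rot t *ᵥ v) (Rot x *ᵥ (crossProduct (e 0) v)) x := by
  have h1 := Real.hasDerivAt_cos x
  have h2 := Real.hasDerivAt_sin x
  rw [hasDerivAt_pi]
  intro i
  fin_cases i
  · have h3 := (h1.mul_const (v 0)).sub (h2.mul_const (v 1))
    have e1 : (fun t => (Rot t *ᵥ v) 0) = fun t => cos t * v 0 - sin t * v 1 := by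
      funext t
      simp [Rot, Matrix.mulVec, dotProduct, Fin.sum_univ_three]
      ring
    have e2 : (Rot x *ᵥ (crossProduct (e 0) v)) 0 = -sin x * v 0 - cos x * v 1 := by
      simp [Rot, Matrix.mulVec, dotProduct, Fin.sum_univ_three, cross_apply, e]
      ring
    change HasDerivAt (fun t => (Rot t *ᵥ v) 0) ((Rot x *ᵥ (crossProduct (e 0) v)) 0) x
    rw [e1, e2]
    exact h3
  · have h3 := (h2.mul_const (v 0)).add (h1.mul_const (v 1))
    have e1 : (fun t => (Rot t *ᵥ v) 1) = fun t => sin t * v 0 + cos t * v 1 := by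
      funext t
      simp [Rot, Matrix.mulVec, dotProduct, Fin.sum_univ_three]
    have e2 : (Rot x *ᵥ (crossProduct (e 0) v)) 1 = cos x * v 0 + -sin x * v 1 := by
      simp [Rot, Matrix.mulVec, dotProduct, Fin.sum_univ_three, cross_apply, e]
      ring
    change HasDerivAt (fun t => (Rot t *ᵥ v) 1) ((Rot x *ᵥ (crossProduct (e 0) v)) 1) x
    rw [e1, e2]
    exact h3
  · have e1 : (fun t => (Rot t *ᵥ v) 2) = fun _ => v 2 := by
      funext t
      simp [Rot, Matrix.mulVec, dotProduct, Fin.sum_univ_three]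
    have e2 : (Rot x *ᵥ (crossProduct (e 0) v)) 2 = 0 := by
      simp [Rot, Matrix.mulVec, dotProduct, Fin.sum_univ_three, cross_apply, e]
    change HasDerivAt (fun t => (Rot t *ᵥ v) 2) ((Rot x *ᵥ (crossProduct (e 0) v)) 2) x
    rw [e1, e2]
    exact hasDerivAt_const _ _

/-- The chain map. -/
theorem chain_eq (Q σ : M3) (k : Fin 4) : (fun z : ℝ × ℝ => (Q * Rot z.1 * σ * Rot z.2) *ᵥ e k) =
    fun z : ℝ × ℝ => Q *ᵥ (Rot z.1 *ᵥ (σ *ᵥ (Rot z.2 *ᵥ e k))) := by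
  funext z
  rw [← Matrix.mulVec_mulVec, ← Matrix.mulVec_mulVec, ← Matrix.mulVec_mulVec]

theorem chain_diff (Q σ : M3) (k : Fin 4) (z : ℝ × ℝ) :
    DifferentiableAt ℝ (fun z : ℝ × ℝ => Q *ᵥ (Rot z.1 *ᵥ (σ *ᵥ (Rot z.2 *ᵥ e k)))) z := by
  rw [differentiableAt_pi]
  intro i
  simp only [Rot, Matrix.mulVec, dotProduct, Fin.sum_univ_three, Matrix.of_apply,
    Matrix.cons_val_zero, Matrix.cons_val_one, Matrix.cons_val]
  fun_prop

/-- The zeros of `A cos y + B sin y` are a null set. -/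
theorem ae_trig {A B : ℝ} (h : 0 < A ^ 2 + B ^ 2) : ∀ᵐ y : ℝ, A * cos y + B * sin y ≠ 0 := by
  set c : ℂ := ⟨A, B⟩ with hc
  have hc0 : c ≠ 0 := by
    intro h0
    have h1 : A = 0 := congrArg Complex.re h0
    have h2 : B = 0 := congrArg Complex.im h0
    rw [h1, h2] at h
    norm_num at h
  have hn : 0 < ‖c‖ := norm_pos_iff.2 hc0
  have hA : ‖c‖ * cos c.arg = A := Complex.norm_mul_cos_arg c
  have hB : ‖c‖ * sin c.arg = B := Complex.norm_mul_sin_arg c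
  have hcount : (Set.range fun n : ℤ => (2 * (n : ℝ) + 1) * π / 2 + c.arg).Countable :=
    Set.countable_range _
  refine (hcount.ae_notMem volume).mono ?_
  intro y hy h0
  apply hy
  have h1 : ‖c‖ * cos (y - c.arg) = 0 := by
    rw [cos_sub]
    calc ‖c‖ * (cos y * cos c.arg + sin y * sin c.arg)
        = (‖c‖ * cos c.arg) * cos y + (‖c‖ * sin c.arg) * sin y := by ring
      _ = 0 := by rw [hA, hB, h0]
  have h2 : cos (y - c.arg) = 0 := by
    rcases mul_eq_zero.1 h1 with h3 | h3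
    · exact absurd h3 hn.ne'
    · exact h3
  obtain ⟨n, hn'⟩ := Real.cos_eq_zero_iff.1 h2
  exact ⟨n, by simp only; linarith⟩

theorem jac_eq (Q : M3) (hQ : Q ∈ SO3) (σ : M3) (hσ : σ ∈ SO3) (j k : Fin 4)
    (hσj : σ *ᵥ e 0 = e j) (z : ℝ × ℝ) :
    Jac (fun z : ℝ × ℝ => (Q * Rot z.1 * σ * Rot z.2) *ᵥ e k) z =
      ((σᵀ *ᵥ e 0) 1 * e k 0 - (σᵀ *ᵥ e 0) 0 * e k 1) * cos z.2 +
        (-((σᵀ *ᵥ e 0) 0 * e k 0) - (σᵀ *ᵥ e 0) 1 * e k 1) * sin z.2 := by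
  rw [chain_eq]
  obtain ⟨x, y⟩ := z
  set F : ℝ × ℝ → V := fun z : ℝ × ℝ => Q *ᵥ (Rot z.1 *ᵥ (σ *ᵥ (Rot z.2 *ᵥ e k))) with hF
  have hd := (chain_diff Q σ k (x, y)).hasFDerivAt
  set w : V := σ *ᵥ (Rot y *ᵥ e k) with hw
  have h1 : dx F (x, y) = Q *ᵥ (Rot x *ᵥ (crossProduct (e 0) w)) := by
    have g1 : HasDerivAt (fun t : ℝ => (t, y)) ((1 : ℝ), (0 : ℝ)) x :=
      (hasDerivAt_id x).prodMk (hasDerivAt_const x y)
    have hd' : HasFDerivAt F (fderiv ℝ F (x, y)) ((fun t : ℝ => (t, y)) x) := hd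
    have g2 : HasDerivAt (F ∘ fun t : ℝ => (t, y)) (fderiv ℝ F (x, y) (1, 0)) x :=
      hd'.comp_hasDerivAt x g1
    have g3 : HasDerivAt (fun t : ℝ => F (t, y)) (Q *ᵥ (Rot x *ᵥ (crossProduct (e 0) w))) x :=
      hd_mulVec Q (hd_Rot w x)
    exact g2.unique g3
  have h2 : dy F (x, y) = Q *ᵥ (Rot x *ᵥ (crossProduct (e j) w)) := by
    have g1 : HasDerivAt (fun t : ℝ => (x, t)) ((0 : ℝ), (1 : ℝ)) y :=
      (hasDerivAt_const y x).prodMk (hasDerivAt_id y)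
    have hd' : HasFDerivAt F (fderiv ℝ F (x, y)) ((fun t : ℝ => (x, t)) y) := hd
    have g2 : HasDerivAt (F ∘ fun t : ℝ => (x, t)) (fderiv ℝ F (x, y) (0, 1)) y :=
      hd'.comp_hasDerivAt y g1
    have g3 : HasDerivAt (fun t : ℝ => F (x, t))
        (Q *ᵥ (Rot x *ᵥ (σ *ᵥ (Rot y *ᵥ (crossProduct (e 0) (e k)))))) y :=
      hd_mulVec Q (hd_mulVec (Rot x) (hd_mulVec σ (hd_Rot (e k) y)))
    have g4 : σ *ᵥ (Rot y *ᵥ (crossProduct (e 0) (e k))) = crossProduct (e j) w := by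
      rw [← cross_mulVec (Rot_SO3 y), ← cross_mulVec hσ, Rot_e0, hσj]
    rw [g4] at g3
    exact g2.unique g3
  have h3 : F (x, y) = Q *ᵥ (Rot x *ᵥ w) := rfl
  have hw1 : w ⬝ᵥ w = 1 := mulVec_sph hσ (mulVec_sph (Rot_SO3 y) (e_sph k))
  unfold Jac
  rw [h1, h2, h3, det3_mulVec hQ, det3_mulVec (Rot_SO3 x)]
  have h4 : det3 (crossProduct (e 0) w) (crossProduct (e j) w) w =
      (w ⬝ᵥ w) * det3 (e 0) (e j) w := by
    simp only [det3, dotProduct, Fin.sum_univ_three, cross_apply,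
      Matrix.cons_val_zero, Matrix.cons_val_one, Matrix.cons_val]
    ring
  rw [h4, hw1, one_mul]
  have h5 : det3 (e 0) (e j) w = det3 (σᵀ *ᵥ e 0) (e 0) (Rot y *ᵥ e k) := by
    have h6 := det3_mulVec hσ (σᵀ *ᵥ e 0) (e 0) (Rot y *ᵥ e k)
    rw [mulVec_transpose hσ, hσj] at h6
    exact h6
  rw [h5]
  generalize σᵀ *ᵥ e 0 = p
  generalize e k = v
  simp [det3, e, Rot, Matrix.mulVec, dotProduct, Fin.sum_univ_three, cross_apply]
  ring

/-- T2. -/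
theorem gT2 : G_T2 := by
  intro Q hQ σ hσ j k hσj hj hk
  set p : V := σᵀ *ᵥ e 0 with hp
  have hp1 : p ⬝ᵥ p = 1 := mulVec_sph (SO3_transpose hσ) (e_sph 0)
  have hp2 : p ⬝ᵥ e 0 = -1 / 3 := by
    have h1 : p ⬝ᵥ e 0 = (σ *ᵥ p) ⬝ᵥ (σ *ᵥ e 0) := (dot_mulVec hσ p (e 0)).symm
    rw [h1, hp, mulVec_transpose hσ, hσj, e_dot, if_neg (Ne.symm hj)]
  have hk1 : e k ⬝ᵥ e k = 1 := e_sph k
  have hk2 : e k ⬝ᵥ e 0 = -1 / 3 := by
    rw [e_dot, if_neg hk]
  have hx : ∀ x : V, x ⬝ᵥ e 0 = x 2 := by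
    intro x
    simp [e, dotProduct, Fin.sum_univ_three]
  rw [hx] at hp2 hk2
  simp only [dotProduct, Fin.sum_univ_three, hp2, hk2] at hp1 hk1
  have hpos : 0 < (p 1 * e k 0 - p 0 * e k 1) ^ 2 + (-(p 0 * e k 0) - p 1 * e k 1) ^ 2 := by
    have e1 : (p 1 * e k 0 - p 0 * e k 1) ^ 2 + (-(p 0 * e k 0) - p 1 * e k 1) ^ 2 =
        (p 0 * p 0 + p 1 * p 1) * (e k 0 * e k 0 + e k 1 * e k 1) := by ring
    have e2 : p 0 * p 0 + p 1 * p 1 = 8 / 9 := by linarith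
    have e3 : e k 0 * e k 0 + e k 1 * e k 1 = 8 / 9 := by linarith
    rw [e1, e2, e3]
    norm_num
  have h1 := ae_trig hpos
  have h2 : ∀ᵐ z : ℝ × ℝ, (p 1 * e k 0 - p 0 * e k 1) * cos z.2 +
      (-(p 0 * e k 0) - p 1 * e k 1) * sin z.2 ≠ 0 := by
    rw [Measure.volume_eq_prod]
    exact Measure.quasiMeasurePreserving_snd.ae h1
  refine h2.mono fun z hz => ?_
  rw [jac_eq Q hQ σ hσ j k hσj z]
  exact hz

end Pool.Agent.Helper8.LU
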