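import Pool.Agent.Helper26.LU.Goals

/-!
# Project LU (MP_db6300_gt), packet AC2: roots of `Z ^ 4 = c Z + d`
-/

set_option autoImplicit false

namespace Pool.Agent.Helper8.LU

open Polynomial
open Pool.Agent.Helper26.LU

/-- AC2. -/
theorem gAC2 : G_AC2 := by
  intro c d
  obtain ⟨z0, h0⟩ := IsAlgClosed.exists_root (X ^ 4 - C c * X - C d : ℂ[X]) (by
    have h : (X ^ 4 - C c * X - C d : ℂ[X]).degree = 4 := by compute_degree!
    rw [h]
    norm_num)
  obtain ⟨z1, h1⟩ := IsAlgClosed.exists_root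
    (X ^ 3 + C z0 * X ^ 2 + C (z0 ^ 2) * X + C (z0 ^ 3 - c) : ℂ[X]) (by
    have h : (X ^ 3 + C z0 * X ^ 2 + C (z0 ^ 2) * X + C (z0 ^ 3 - c) : ℂ[X]).degree = 3 := by
      compute_degree!
    rw [h]
    norm_num)
  obtain ⟨z2, h2⟩ := IsAlgClosed.exists_root
    (X ^ 2 + C (z0 + z1) * X + C (z0 ^ 2 + z0 * z1 + z1 ^ 2) : ℂ[X]) (by
    have h : (X ^ 2 + C (z0 + z1) * X + C (z0 ^ 2 + z0 * z1 + z1 ^ 2) : ℂ[X]).degree = 2 := by
      compute_degree!
    rw [h]
    norm_num)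
  simp only [IsRoot.def, eval_add, eval_sub, eval_mul, eval_pow, eval_X, eval_C] at h0 h1 h2
  refine ⟨![z0, z1, z2, -(z0 + z1 + z2)], ?_, ?_, ?_, ?_⟩
  · simp only [Fin.sum_univ_four, Matrix.cons_val_zero, Matrix.cons_val_one, Matrix.cons_val]
    ring
  · simp only [Fin.sum_univ_four, Matrix.cons_val_zero, Matrix.cons_val_one, Matrix.cons_val]
    linear_combination 2 * h2
  · simp only [Fin.sum_univ_four, Matrix.cons_val_zero, Matrix.cons_val_one, Matrix.cons_val]
    linear_combination (-3 * (z0 + z1)) * h2 + 3 * h1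
  · intro j
    fin_cases j
    · change z0 ^ 4 = c * z0 + d
      linear_combination h0
    · change z1 ^ 4 = c * z1 + d
      linear_combination (z1 - z0) * h1 + h0
    · change z2 ^ 4 = c * z2 + d
      linear_combination (z2 - z0) * (z2 - z1) * h2 + (z2 - z0) * h1 + h0
    · change (-(z0 + z1 + z2)) ^ 4 = c * (-(z0 + z1 + z2)) + d
      linear_combination (-(z0 + z1 + z2) - z0) * (-(z0 + z1 + z2) - z1) * h2 +
        (-(z0 + z1 + z2) - z0) * h1 + h0

end Pool.Agent.Helper8.LU
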